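import Pool.Agent.MP_34e614_co.Main

set_option autoImplicit false

open scoped Pointwise

namespace Pool.Agent.Results.MP_34e614_co.CompositionFactors

open Pool.Agent.MP_34e614_co

universe u

/-- Q1 with exponent `1/3` for finite groups all of whose non-abelian composition factors have
order at most `exp (log^(1/3) |A|)`. -/
theorem result : ∃ c : ℝ, 0 < c ∧ ∀ (G : Type u) [Group G] [Finite G] [DecidableEq G],
    ∀ K : ℝ, 1 ≤ K → ∀ A : Finset G, A.Nonempty → A⁻¹ = A →
      ((A ^ 3).card : ℝ) ≤ K * A.card →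
      (∀ (H : Subgroup G) (N : Subgroup H) [N.Normal], H.IsSubnormal → IsSimpleGroup (H ⧸ N) →
        (∀ x y : H ⧸ N, x * y = y * x) ∨
          (Nat.card (H ⧸ N) : ℝ) ≤ Real.exp (Real.log A.card ^ (1 / 3 : ℝ))) →
      ∃ T : Finset G, T ⊆ A ^ 4 ∧ (∀ x ∈ T, ∀ y ∈ T, x * y = y * x) ∧
        Real.exp (c * (Real.log A.card ^ (1 / 3 : ℝ) / Real.log (2 * K))) ≤ T.card := by
  refine ⟨1 / 600, by norm_num, ?_⟩
  intro G _ _ _ K hK A hA hs h3 hG
  have h1 : 1 ≤ Real.exp (Real.log A.card ^ (1 / 3 : ℝ)) :=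
    Real.one_le_exp (Real.rpow_nonneg (Real.log_natCast_nonneg _) _)
  refine main2 A hA hs K hK h3 (D := ⌊Real.exp (Real.log A.card ^ (1 / 3 : ℝ))⌋₊)
    (good2_of_finite (Nat.le_floor (by exact_mod_cast h1)) ?_) (Nat.floor_le (by linarith))
  intro H N _ hH hS
  exact (hG H N hH hS).imp id Nat.le_floor

end Pool.Agent.Results.MP_34e614_co.CompositionFactors
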