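import Pool.Agent.MP_34e614_co.Main

set_option autoImplicit false

open scoped Pointwise

namespace Pool.Agent.Results.MP_34e614_co.InvariantSeries

open Pool.Agent.MP_34e614_co

universe u

/-- Q1 with exponent `1/3` for solvable groups and, more generally, for groups with a
conjugation-invariant series with abelian factors. -/
theorem result : ∃ c : ℝ, 0 < c ∧ ∀ (G : Type u) [Group G] [DecidableEq G],
    (Group.IsSolvable G ∨ HasInvariantAbelianSeries G) →
    ∀ K : ℝ, 1 ≤ K → ∀ A : Finset G, A.Nonempty → A⁻¹ = A →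
      ((A ^ 3).card : ℝ) ≤ K * A.card →
      ∃ T : Finset G, T ⊆ A ^ 4 ∧ (∀ x ∈ T, ∀ y ∈ T, x * y = y * x) ∧
        Real.exp (c * (Real.log A.card ^ (1 / 3 : ℝ) / Real.log (2 * K))) ≤ T.card := by
  refine ⟨1 / 600, by norm_num, ?_⟩
  intro G _ _ hG K hK A hA hs h3
  have h : HasInvariantAbelianSeries G := hG.elim series_of_solvable id
  refine main2 A hA hs K hK h3 (good2_of_series h) ?_
  exact_mod_cast Real.one_le_exp (Real.rpow_nonneg (Real.log_natCast_nonneg _) _)

end Pool.Agent.Results.MP_34e614_co.InvariantSeries
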