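import Pool.Agent.MP_34e614_co.H31.PartE
import Pool.Agent.MP_34e614_co.H98.Known

set_option autoImplicit false

open scoped Pointwise

namespace Pool.Agent.Results.MP_34e614_co.KnownSimple

open Pool.Agent.MP_34e614_co.H31 Pool.Agent.MP_34e614_co.H98

universe u

/-- Q1 for every group whose simple quotients of finite subgroups are abelian, of order at most
`10 ^ 54`, alternating, have a BN-pair with solvable `B`, or have large commuting subsets. -/
theorem result : ∀ c₀ γ : ℝ, 0 < c₀ → 0 < γ → ∃ c c' : ℝ, 0 < c ∧ 0 < c' ∧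
    ∀ (G : Type u) [Group G] [DecidableEq G],
      (∀ (H : Subgroup G) (S : Type u) [Group S] (f : H →* S), Finite H → Function.Surjective f →
        IsSimpleGroup S → (∀ x y : S, x * y = y * x) ∨ Nat.card S ≤ 10 ^ 54 ∨
          (∃ n : ℕ, Nonempty (S ≃* alternatingGroup (Fin n))) ∨ SolvableBN S ∨
          ∃ B : Finset S, (∀ x ∈ B, ∀ y ∈ B, x * y = y * x) ∧
            Real.exp (c₀ * Real.log (Nat.card S) ^ γ) ≤ B.card) →
      ∀ K : ℝ, 1 ≤ K → ∀ A : Finset G, A.Nonempty → A⁻¹ = A →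
        ((A ^ 3).card : ℝ) ≤ K * A.card →
        ∃ T : Finset G, T ⊆ A ^ 4 ∧ (∀ x ∈ T, ∀ y ∈ T, x * y = y * x) ∧
          Real.exp (c' * (Real.log A.card ^ c / Real.log (2 * K))) ≤ T.card := by
  intro c₀ γ hc₀ hγ
  obtain ⟨c₂, γ₂, hc₂, hγ₂, h0⟩ := known_comm.{u}
  obtain ⟨c₁, γ₁, hc₁, hγ₁, h1⟩ := pyber_of_simple.{u} (lt_min hc₀ hc₂) (lt_min hγ hγ₂)
  obtain ⟨c, c', hc, hc', h2⟩ := red.{u} (768 * 1200) hc₁ hγ₁
  refine ⟨c, c', hc, hc', fun G _ _ hG K hK A hA hs h3 => ?_⟩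
  obtain ⟨T, X, g, H, Γ, a1, a2, a3, a4, a5, -⟩ := mainQ hA hs hK h3
  refine h2 G (h1 G fun H' N _ hf hS => ?_) K hK A hA hs T g H a1 a2 a3 a4 a5
  have hG' := hG H' _ (QuotientGroup.mk' N) hf (QuotientGroup.mk'_surjective N) hS
  by_cases h4 : Nat.card (H' ⧸ N) ≤ 10 ^ 54
  · by_cases h5 : Nat.card (H' ⧸ N) = 2
    · have : Fact (Nat.Prime 2) := ⟨Nat.prime_two⟩
      have := isCyclic_of_prime_card h5
      exact Or.inl fun x y => mul_comm' x y
    · exact Or.inr (weaken (by have := Finite.one_lt_card (α := H' ⧸ N); omega)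
        (min_le_right _ _) (min_le_right _ _) hc₂ (h0 _ (Or.inl h4)))
  have h5 : 3 ≤ Nat.card (H' ⧸ N) := by omega
  rcases hG' with a | a | a | a | a
  · exact Or.inl a
  · exact absurd a h4
  · exact Or.inr (weaken h5 (min_le_right _ _) (min_le_right _ _) hc₂
      (h0 _ (Or.inr (Or.inl a))))
  · exact Or.inr (weaken h5 (min_le_right _ _) (min_le_right _ _) hc₂
      (h0 _ (Or.inr (Or.inr a))))
  · exact Or.inr (weaken h5 (min_le_left _ _) (min_le_left _ _) hc₀ a)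

end Pool.Agent.Results.MP_34e614_co.KnownSimple
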