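import Pool.Agent.MP_34e614_co.H31.PartE

set_option autoImplicit false

open scoped Pointwise

namespace Pool.Agent.Results.MP_34e614_co.QuasiPolyStructure

universe u

/-- Structure of sets of small tripling in arbitrary groups, with quasi-polynomial bounds. -/
theorem result : ∃ C : ℕ, ∀ (G : Type u) [Group G] [DecidableEq G],
    ∀ K : ℝ, 1 ≤ K → ∀ A : Finset G, A.Nonempty → A⁻¹ = A →
      ((A ^ 3).card : ℝ) ≤ K * A.card →
      ∃ (H Γ : Subgroup G) (X T : Finset G) (g : G),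
        (H : Set G) ⊆ ↑(A ^ 4) ∧ H ≤ Γ ∧
        (∃ _ : (H.subgroupOf Γ).Normal, Group.IsNilpotent (Γ ⧸ H.subgroupOf Γ)) ∧
        Subgroup.closure ((Γ : Set G) ∩ ↑(A ^ 4)) = Γ ∧
        (A : Set G) ⊆ (X : Set G) * (Γ : Set G) ∧
        (X.card : ℝ) ≤ Real.exp (Real.log (8 * K) ^ C) ∧
        T ⊆ A ^ 4 ∧ (∀ x ∈ T, x ∈ Subgroup.zpowers g) ∧
        (A.card : ℝ) ≤ (T.card : ℝ) ^ (Real.log (8 * K) ^ C) * Nat.card H := by
  refine ⟨768 * 1200, fun G _ _ K hK A hA hs h3 => ?_⟩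
  obtain ⟨T, X, g, H, Γ, h1, -, h2, h4, h5, h6, h7, h8, h9, h10⟩ :=
    Pool.Agent.MP_34e614_co.H31.mainQ hA hs hK h3
  exact ⟨H, Γ, X, T, g, h4, h6, h7, h8, h9, h10, h1, h2, h5⟩

end Pool.Agent.Results.MP_34e614_co.QuasiPolyStructure
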